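import Pool.Agent.Zk53.CE.G
import Pool.Agent.Results.MP_de9007_nt.SetsOfExponents

/-!
# Common exponents of two pairs

For integers `a > 1`, `|b| < a`, a real `β > 0` and a prime `p` let `W a b β p` be the `p`-rough part
(the product, with multiplicity, of the prime factors larger than `p`) of `⌊β a ^ p - b ^ p / (a - b)⌋`.
At the amplitude `β = 1 / (a - b)` it is the number `M_p(a, b) = (a ^ p - b ^ p) / (a - b)` of the
question, for `p` prime to `a - b`.

For two pairs `(a, b)`, `(a', b')` and two amplitudes `β`, `β'` let `Common a b a' b' β β'` be the set of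
the primes `p` for which both numbers `W a b β p` and `W a' b' β' p` are prime. At the two special
amplitudes `1 / (a - b)`, `1 / (a' - b')`, whose quotient is rational, it is, up to finitely many `p`,
the set of the primes `p` for which both `M_p(a, b)` and `M_p(a', b')` are prime. The conjecture of
Lenstra, Pomerance and Wagstaff for all pairs suggests that this set is finite (the number of `p`
should be the sum of `(log p / p) ^ 2`), so that the union of the exponents of finitely many pairs has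
the sum of the counting functions as its counting function.

We prove: for almost every `β > 0`, simultaneously for all pairs `(a, b)`, `(a', b')` and all rational
`ρ > 0`, the set `Common a b a' b' β (ρ β)` is finite, except in the case `Exceptional`: the same pair
and `ρ = 1`, or `a = a'`, the numbers `b`, `b'` are among `-1, 0, 1` and the real number
`D = ρ b / (a - b) - b' / (a' - b')` satisfies `-ρ < D < 1`. (This says that the integral parts `N`, `N'`
can satisfy `N' = ρ N`; then their rough parts are the same. For example the pairs `(2, 1)` and `(2, -1)`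
are exceptional for `ρ = 1 / 3`, but not for `ρ = 1`.) So for almost every `β > 0`, for all finite sets
`S` of triples `(a, b, r)`, no two of which are exceptional, the number of the primes `p ≤ n` such that
`W a b (r β) p` is prime for some `(a, b, r)` in `S` is asymptotic to `e ^ γ (∑ 1 / log a) log n`.

The second number is a linear function of the first one with the slope `ρ (a' / a) ^ p`. For `a < a'`
it is exponentially large. The joint sieve of the library `W66` for a number and a linear function of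
it needs diophantine conditions on the slope, which fail here (the slope may be rational), but for a
large slope they are not needed (`Pool.Agent.Zk53.CE.A`): the resonances have very small weights. For
`a = a'` the slope is the fixed rational number `ρ = u / v`, the two integral parts satisfy
`2 v N' = 2 u N + r` with `r` in an interval of bounded length, and `r ≠ 0` for large odd `p` in the
cases which are not exceptional (`Pool.Agent.Zk53.CE.G`; mostly since `r` tends to infinity). We sieve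
for `N` and `2 u N + r` (`Pool.Agent.Zk53.CE.E`, `Pool.Agent.Zk53.CE.F`; for large `p` the rough parts
of `N'` and `2 v N'` are the same). So the probability that both numbers are prime is
`O((log p / p) ^ 2)`, for all odd `p`.
-/

set_option autoImplicit false

namespace Pool.Agent.Results.MP_de9007_nt.CommonExponents

open Filter Topology MeasureTheory Asymptotics

/-- The product, with multiplicity, of the prime factors of `m` that are larger than `p`. -/
def roughPart (p m : ℕ) : ℕ := (m.primeFactorsList.filter (fun r => p < r)).prod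

/-- The `p`-rough part of `⌊β a ^ p - b ^ p / (a - b)⌋`. -/
noncomputable def W (a b : ℤ) (β : ℝ) (p : ℕ) : ℕ :=
  roughPart p ⌊β * (a : ℝ) ^ p - (b : ℝ) ^ p / ((a : ℝ) - b)⌋₊

/-- The primes `p` for which both numbers are prime. -/
def Common (a b a' b' : ℤ) (β β' : ℝ) : Set ℕ :=
  {p | p.Prime ∧ (W a b β p).Prime ∧ (W a' b' β' p).Prime}

/-- The exceptional case: the same base, and the same `b` and the same amplitude, or `b` and `b'` are
among `-1, 0, 1` such that the two integral parts may be proportional. -/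
def Exceptional (a b a' b' : ℤ) (ρ : ℚ) : Prop :=
  a = a' ∧ ((b = b' ∧ ρ = 1) ∨ (|b| ≤ 1 ∧ |b'| ≤ 1 ∧
    -ρ < ρ * (b / ((a : ℚ) - b)) - b' / ((a' : ℚ) - b') ∧
    ρ * (b / ((a : ℚ) - b)) - b' / ((a' : ℚ) - b') < 1))

open Classical in
/-- The number of primes `p ≤ n` for which one of the numbers `W a b (ρ β) p`, `(a, b, ρ) ∈ S`, is
prime. -/
noncomputable def union (S : Finset (ℤ × ℤ × ℚ)) (β : ℝ) (n : ℕ) : ℕ :=
  ((Finset.range (n + 1)).filter
    (fun p => p.Prime ∧ ∃ s ∈ S, (W s.1 s.2.1 (s.2.2 * β) p).Prime)).card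

/-- scaling -/
lemma ae_scale {P : ℝ → Prop} (h : ∀ᵐ x : ℝ, 0 < x → P x) {r : ℝ} (hr : 0 < r) :
    ∀ᵐ x : ℝ, 0 < x → P (r * x) := by
  rw [ae_iff] at h ⊢
  have h1 : volume ((fun x => r * x) ⁻¹' {x : ℝ | ¬ (0 < x → P x)}) = 0 := by
    rw [Real.volume_preimage_mul_left hr.ne', h, mul_zero]
  refine measure_mono_null (fun x hx => ?_) h1
  simp only [Set.mem_preimage, Set.mem_ofPred_eq] at hx ⊢
  intro h2
  exact hx fun h3 => h2 (mul_pos hr h3)

lemma shift_bound {a b : ℤ} (hb : |b| < a) (p : ℕ) :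
    |-((b : ℝ) ^ p / ((a : ℝ) - b))| ≤ 1 / ((a : ℝ) - b) * |(b : ℝ)| ^ p := by
  have hab : (0 : ℝ) < (a : ℝ) - b := by
    have h1 := le_abs_self b
    have h2 : b < a := by omega
    have h3 : (b : ℝ) < a := by exact_mod_cast h2
    linarith
  rw [abs_neg, abs_div, abs_pow, abs_of_pos hab]
  exact le_of_eq (by ring)

lemma finite_common {a b a' b' : ℤ} (ha : 1 < a) (haa : a < a') (hb : |b| < a) (hb' : |b'| < a')
    (ρ : ℚ) (hρ : 0 < ρ) : ∀ᵐ β : ℝ, 0 < β → (Common a b a' b' β (ρ * β)).Finite := by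
  have hρ' : (0 : ℝ) < ρ := by exact_mod_cast hρ
  have e : Real.exp (Real.log (ρ : ℝ)) = (ρ : ℝ) := Real.exp_log hρ'
  have key := Pool.Agent.Zk53.CE.fin_floor (c := Real.log (ρ : ℝ)) (α := (a : ℝ)) (α' := (a' : ℝ))
    (κ := |(b : ℝ)|) (κ' := |(b' : ℝ)|) (by exact_mod_cast ha) (by exact_mod_cast haa)
    (abs_nonneg _) (by exact_mod_cast hb) (abs_nonneg _) (by exact_mod_cast hb')
    (g := fun p => -((b : ℝ) ^ p / ((a : ℝ) - b))) (g' := fun p => -((b' : ℝ) ^ p / ((a' : ℝ) - b')))
    (fun p => shift_bound hb p) (fun p => shift_bound hb' p)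
  filter_upwards [key] with β h hβ
  obtain ⟨P, hP⟩ := eventually_atTop.1 (h hβ)
  refine (Set.finite_Iio P).subset ?_
  rintro p ⟨_, h1, h2⟩
  rw [Set.mem_Iio]
  by_contra hp
  refine hP p (not_lt.1 hp) ⟨?_, ?_⟩
  · have h3 : W a b β p = Pool.Agent.H305R2.roughPart p
        ⌊β * (a : ℝ) ^ p + -((b : ℝ) ^ p / ((a : ℝ) - b))⌋₊ := by
      rw [← sub_eq_add_neg]; rfl
    rw [← h3]; exact h1
  · have h3 : W a' b' (ρ * β) p = Pool.Agent.H305R2.roughPart p
        ⌊Real.exp (Real.log (ρ : ℝ)) * β * (a' : ℝ) ^ p + -((b' : ℝ) ^ p / ((a' : ℝ) - b'))⌋₊ := by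
      rw [← sub_eq_add_neg, e]; rfl
    rw [← h3]; exact h2

lemma diff_pos {a b : ℤ} (hb : |b| < a) : (0 : ℝ) < (a : ℝ) - b := by
  have h1 := le_abs_self b
  have h2 : b < a := by omega
  have h3 : (b : ℝ) < a := by exact_mod_cast h2
  linarith

lemma pow_small {b : ℤ} (hb : |b| ≤ 1) {p : ℕ} (hp : Odd p) : (b : ℝ) ^ p = b := by
  have h1 := abs_le.1 hb
  have h2 : b = -1 ∨ b = 0 ∨ b = 1 := by omega
  rcases h2 with rfl | rfl | rfl
  · simp [hp.neg_one_pow]
  · simp [hp.pos.ne']
  · simp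

lemma finite_same {a b b' : ℤ} (ha : 1 < a) (hb : |b| < a) (hb' : |b'| < a) (ρ : ℚ) (hρ : 0 < ρ)
    (h1 : ¬ Exceptional a b a b' ρ) :
    ∀ᵐ β : ℝ, 0 < β → (Common a b a b' β (ρ * β)).Finite := by
  have hρ' : (0 : ℝ) < ρ := by exact_mod_cast hρ
  have e : Real.exp (Real.log (ρ : ℝ)) = (ρ : ℝ) := Real.exp_log hρ'
  have hab := diff_pos hb
  have hab' := diff_pos hb'
  obtain ⟨u, v, hu, hv, huv⟩ : ∃ u v : ℕ, 0 < u ∧ 0 < v ∧ (v : ℝ) * ρ = u := by
    have h3 := Rat.num_pos.2 hρ
    refine ⟨ρ.num.toNat, ρ.den, by omega, ρ.den_pos, ?_⟩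
    have h4 : (((ρ.num.toNat : ℕ) : ℤ) : ℚ) = (ρ.num : ℚ) := by rw [Int.toNat_of_nonneg h3.le]
    have h5 : (ρ.den : ℚ) * ρ = ((ρ.num.toNat : ℕ) : ℚ) := by
      rw [mul_comm, Rat.mul_den_eq_num, ← h4]
      norm_cast
    exact_mod_cast h5
  have hu' : (0 : ℝ) < u := by exact_mod_cast hu
  have hv' : (0 : ℝ) < v := by exact_mod_cast hv
  have hsep : ∀ᶠ p : ℕ in atTop, Odd p →
      (v : ℝ) ≤ v * (-((b' : ℝ) ^ p / ((a : ℝ) - b'))) - u * (-((b : ℝ) ^ p / ((a : ℝ) - b))) ∨
      v * (-((b' : ℝ) ^ p / ((a : ℝ) - b'))) - u * (-((b : ℝ) ^ p / ((a : ℝ) - b))) ≤ -u := by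
    by_cases hs : |b| ≤ 1 ∧ |b'| ≤ 1
    · -- small shifts
      have h4 : ρ * (b / ((a : ℚ) - b)) - b' / ((a : ℚ) - b') ≤ -ρ ∨
          1 ≤ ρ * (b / ((a : ℚ) - b)) - b' / ((a : ℚ) - b') := by
        by_contra hc
        rw [not_or, not_le, not_le] at hc
        exact h1 ⟨rfl, Or.inr ⟨hs.1, hs.2, hc.1, hc.2⟩⟩
      refine Eventually.of_forall fun p hodd => ?_
      rw [pow_small hs.1 hodd, pow_small hs.2 hodd]
      have e1 : (v : ℝ) * (-((b' : ℝ) / ((a : ℝ) - b'))) - u * (-((b : ℝ) / ((a : ℝ) - b))) =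
          v * (ρ * ((b : ℝ) / ((a : ℝ) - b)) - (b' : ℝ) / ((a : ℝ) - b')) := by
        rw [← huv]; ring
      rw [e1]
      rcases h4 with h4 | h4
      · right
        have h5 : (ρ : ℝ) * ((b : ℝ) / ((a : ℝ) - b)) - (b' : ℝ) / ((a : ℝ) - b') ≤ -ρ := by
          exact_mod_cast h4
        have h6 := mul_le_mul_of_nonneg_left h5 hv'.le
        linarith
      · left
        have h5 : (1 : ℝ) ≤ (ρ : ℝ) * ((b : ℝ) / ((a : ℝ) - b)) - (b' : ℝ) / ((a : ℝ) - b') := by
          exact_mod_cast h4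
        have h6 := mul_le_mul_of_nonneg_left h5 hv'.le
        linarith
    · -- large shifts
      have h3 := Pool.Agent.Zk53.CE.sep (x := (b : ℝ)) (y := (b' : ℝ)) (A := u / ((a : ℝ) - b))
        (B := v / ((a : ℝ) - b')) (L := (u : ℝ) + v) (by positivity) (by positivity)
        (by
          by_contra hc
          rw [not_or, not_lt, not_lt] at hc
          exact hs ⟨by exact_mod_cast hc.1, by exact_mod_cast hc.2⟩)
        (by
          by_contra hc
          rw [not_or, not_not, not_not] at hc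
          obtain ⟨k1, k2⟩ := hc
          have k3 : b = b' := by exact_mod_cast k1
          refine h1 ⟨rfl, Or.inl ⟨k3, ?_⟩⟩
          rw [← k1, div_left_inj' hab.ne'] at k2
          rw [k2] at huv
          have k5 : (ρ : ℝ) = 1 := by
            have k6 : (v : ℝ) * ρ = v * 1 := by rw [huv, mul_one]
            exact mul_left_cancel₀ hv'.ne' k6
          exact_mod_cast k5)
      filter_upwards [h3] with p hp hodd
      have h4 := hp hodd
      have e1 : (v : ℝ) * (-((b' : ℝ) ^ p / ((a : ℝ) - b'))) - u * (-((b : ℝ) ^ p / ((a : ℝ) - b))) =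
          u / ((a : ℝ) - b) * (b : ℝ) ^ p - v / ((a : ℝ) - b') * (b' : ℝ) ^ p := by
        ring
      rw [e1]
      rcases lt_abs.1 h4 with h5 | h5
      · left; linarith
      · right; linarith
  have key := Pool.Agent.Zk53.CE.fin_floors (c := Real.log (ρ : ℝ)) (a := (a : ℝ))
    (κ := |(b : ℝ)|) (κ' := |(b' : ℝ)|) (by exact_mod_cast ha) (abs_nonneg _) (by exact_mod_cast hb)
    (abs_nonneg _) (by exact_mod_cast hb')
    (g := fun p => -((b : ℝ) ^ p / ((a : ℝ) - b))) (g' := fun p => -((b' : ℝ) ^ p / ((a : ℝ) - b')))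
    (fun p => shift_bound hb p) (fun p => shift_bound hb' p) hu hv (by rw [e]; exact huv)
    (Q := fun p => Odd p) hsep
  filter_upwards [key] with β h hβ
  obtain ⟨P, hP⟩ := eventually_atTop.1 (h hβ)
  refine (Set.finite_Iio (max P 3)).subset ?_
  rintro p ⟨hp, h1, h2⟩
  rw [Set.mem_Iio]
  by_contra hpP
  have hp3 : 3 ≤ p := (le_max_right _ _).trans (not_lt.1 hpP)
  refine hP p ((le_max_left _ _).trans (not_lt.1 hpP)) (hp.odd_of_ne_two (by omega)) ⟨?_, ?_⟩
  · have h3 : W a b β p = Pool.Agent.H305R2.roughPart p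
        ⌊β * (a : ℝ) ^ p + -((b : ℝ) ^ p / ((a : ℝ) - b))⌋₊ := by
      rw [← sub_eq_add_neg]; rfl
    rw [← h3]; exact h1
  · have h3 : W a b' (ρ * β) p = Pool.Agent.H305R2.roughPart p
        ⌊Real.exp (Real.log (ρ : ℝ)) * β * (a : ℝ) ^ p + -((b' : ℝ) ^ p / ((a : ℝ) - b'))⌋₊ := by
      rw [← sub_eq_add_neg, e]; rfl
    rw [← h3]; exact h2

lemma finite_all {a b a' b' : ℤ} (ha : 1 < a) (ha' : 1 < a') (hb : |b| < a) (hb' : |b'| < a')
    (ρ : ℚ) (hρ : 0 < ρ) (h1 : ¬ Exceptional a b a' b' ρ) :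
    ∀ᵐ β : ℝ, 0 < β → (Common a b a' b' β (ρ * β)).Finite := by
  rcases lt_trichotomy a a' with h | h | h
  · exact finite_common ha h hb hb' ρ hρ
  · subst h
    exact finite_same ha hb hb' ρ hρ h1
  · have hρ' : (0 : ℝ) < ρ := by exact_mod_cast hρ
    have h3 := ae_scale (finite_common ha' h hb' hb ρ⁻¹ (inv_pos.2 hρ)) hρ'
    filter_upwards [h3] with β hβ h0
    refine (hβ h0).subset ?_
    rintro p ⟨k1, k2, k3⟩
    refine ⟨k1, k3, ?_⟩
    have e : ((ρ⁻¹ : ℚ) : ℝ) * ((ρ : ℝ) * β) = β := by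
      push_cast
      field_simp
    rw [e]
    exact k2

/-- the law for one pair and all rational multiples of the amplitude -/
lemma law : ∀ᵐ β : ℝ, ∀ r : ℚ, 0 < r → 0 < β → ∀ a b : ℤ, 1 < a → -a < b → b < a →
    (fun n : ℕ => (SetsOfExponents.M Set.univ a b (r * β) n : ℝ) -
      Real.exp Real.eulerMascheroniConstant / Real.log a * Real.log n) =O[atTop]
    (fun n : ℕ => Real.sqrt (Real.log n) * (Real.log (Real.log n)) ^ ((5 : ℝ) / 2)) := by
  rw [ae_all_iff]
  intro r
  by_cases hr : 0 < r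
  · have hr' : (0 : ℝ) < r := by exact_mod_cast hr
    filter_upwards [ae_scale SetsOfExponents.result.2.2.1 hr'] with β hβ _
    exact hβ
  · exact Eventually.of_forall fun β h1 => absurd h1 hr

lemma one_isBigO : (fun _ : ℕ => (1 : ℝ)) =O[atTop]
    (fun n : ℕ => Real.sqrt (Real.log n) * (Real.log (Real.log n)) ^ ((5 : ℝ) / 2)) := by
  have h1 : Tendsto (fun n : ℕ => Real.log (n : ℝ)) atTop atTop :=
    Real.tendsto_log_atTop.comp tendsto_natCast_atTop_atTop
  have h2 : Tendsto (fun n : ℕ => Real.log (Real.log (n : ℝ))) atTop atTop :=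
    Real.tendsto_log_atTop.comp h1
  refine IsBigO.of_bound 1 ?_
  filter_upwards [h1.eventually_ge_atTop 1, h2.eventually_ge_atTop 1] with n k1 k2
  have k3 : 1 ≤ Real.sqrt (Real.log n) := Real.one_le_sqrt.2 k1
  have k4 : 1 ≤ (Real.log (Real.log n)) ^ ((5 : ℝ) / 2) := Real.one_le_rpow k2 (by norm_num)
  rw [norm_one, one_mul, Real.norm_eq_abs, abs_of_nonneg (by positivity)]
  exact one_le_mul_of_one_le_of_one_le k3 k4

/-- counting points of a union of sets with finite intersections -/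
lemma union_law {ι : Type} [DecidableEq ι] (S : Finset ι) (E : ι → ℕ → Prop) [∀ i, DecidablePred (E i)]
    (hE : ∀ i ∈ S, ∀ j ∈ S, i ≠ j → {p | E i p ∧ E j p}.Finite) {κ : ι → ℝ} {G : ℕ → ℝ}
    (hG : (fun _ : ℕ => (1 : ℝ)) =O[atTop] G)
    (hκ : ∀ i ∈ S, (fun n : ℕ => (((Finset.range (n + 1)).filter (E i)).card : ℝ) -
      κ i * Real.log n) =O[atTop] G) (U : ℕ → Prop) [DecidablePred U] (hU : ∀ p, U p ↔ ∃ i ∈ S, E i p) :
    (fun n : ℕ => (((Finset.range (n + 1)).filter U).card : ℝ) - (∑ i ∈ S, κ i) * Real.log n)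
      =O[atTop] G := by
  classical
  -- a bound for the common elements
  obtain ⟨P, hP⟩ : ∃ P : ℕ, ∀ i ∈ S, ∀ j ∈ S, i ≠ j → ∀ p, E i p → E j p → p < P := by
    have h1 : (⋃ i ∈ S, ⋃ j ∈ S, {p | i ≠ j ∧ E i p ∧ E j p}).Finite := by
      refine Set.Finite.biUnion S.finite_toSet fun i hi => ?_
      refine Set.Finite.biUnion S.finite_toSet fun j hj => ?_
      by_cases hij : i = j
      · have h2 : {p | i ≠ j ∧ E i p ∧ E j p} = ∅ := by
          ext p
          simp [hij]
        rw [h2]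
        exact Set.finite_empty
      · exact (hE i hi j hj hij).subset fun p hp => hp.2
    obtain ⟨P, hP⟩ := h1.bddAbove
    refine ⟨P + 1, fun i hi j hj hij p h2 h3 => Nat.lt_succ_of_le (hP ?_)⟩
    simp only [Set.mem_iUnion]
    exact ⟨i, hi, j, hj, hij, h2, h3⟩
  -- the sum is at most the union plus a constant
  have hA : ∀ n : ℕ, ∑ i ∈ S, ((Finset.range (n + 1)).filter (E i)).card ≤
      ((Finset.range (n + 1)).filter U).card + S.card * P := by
    intro n
    have h1 : ∀ i ∈ S, ((Finset.range (n + 1)).filter (E i)).card ≤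
        ((Finset.range (n + 1)).filter (fun p => E i p ∧ P ≤ p)).card + P := by
      intro i _
      have h2 : (Finset.range (n + 1)).filter (E i) ⊆
          (Finset.range (n + 1)).filter (fun p => E i p ∧ P ≤ p) ∪ Finset.range P := by
        intro p hp
        rw [Finset.mem_filter] at hp
        simp only [Finset.mem_union, Finset.mem_filter, Finset.mem_range]
        rcases lt_or_ge p P with h | h
        · exact Or.inr h
        · exact Or.inl ⟨Finset.mem_range.1 hp.1, hp.2, h⟩
      have h3 := (Finset.card_le_card h2).trans (Finset.card_union_le _ _)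
      rwa [Finset.card_range] at h3
    have h2 : ∑ i ∈ S, ((Finset.range (n + 1)).filter (fun p => E i p ∧ P ≤ p)).card ≤
        ((Finset.range (n + 1)).filter U).card := by
      rw [← Finset.card_biUnion]
      · refine Finset.card_le_card fun p hp => ?_
        rw [Finset.mem_biUnion] at hp
        obtain ⟨i, hi, hp⟩ := hp
        rw [Finset.mem_filter] at hp ⊢
        exact ⟨hp.1, (hU p).2 ⟨i, hi, hp.2.1⟩⟩
      · intro i hi j hj hij
        rw [Function.onFun, Finset.disjoint_left]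
        intro p hp hp'
        rw [Finset.mem_filter] at hp hp'
        have := hP i hi j hj hij p hp.2.1 hp'.2.1
        omega
    refine (Finset.sum_le_sum h1).trans ?_
    rw [Finset.sum_add_distrib, Finset.sum_const, smul_eq_mul]
    omega
  have hB : ∀ n : ℕ, ((Finset.range (n + 1)).filter U).card ≤
      ∑ i ∈ S, ((Finset.range (n + 1)).filter (E i)).card := by
    intro n
    refine le_trans (Finset.card_le_card fun p hp => ?_) Finset.card_biUnion_le
    rw [Finset.mem_filter] at hp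
    obtain ⟨i, hi, h⟩ := (hU p).1 hp.2
    rw [Finset.mem_biUnion]
    exact ⟨i, hi, Finset.mem_filter.2 ⟨hp.1, h⟩⟩
  have h1 : (fun n : ℕ => (((Finset.range (n + 1)).filter U).card : ℝ) -
      ∑ i ∈ S, (((Finset.range (n + 1)).filter (E i)).card : ℝ)) =O[atTop] G := by
    refine IsBigO.trans (IsBigO.of_bound ((S.card * P : ℕ) : ℝ) (Eventually.of_forall fun n => ?_)) hG
    have k1 : (∑ i ∈ S, (((Finset.range (n + 1)).filter (E i)).card : ℝ)) ≤
        (((Finset.range (n + 1)).filter U).card : ℝ) + ((S.card * P : ℕ) : ℝ) := by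
      exact_mod_cast hA n
    have k2 : (((Finset.range (n + 1)).filter U).card : ℝ) ≤
        ∑ i ∈ S, (((Finset.range (n + 1)).filter (E i)).card : ℝ) := by exact_mod_cast hB n
    rw [norm_one, mul_one, Real.norm_eq_abs, abs_le]
    constructor <;> linarith [Nat.cast_nonneg (α := ℝ) (S.card * P)]
  have h2 : (fun n : ℕ => ∑ i ∈ S, ((((Finset.range (n + 1)).filter (E i)).card : ℝ) -
      κ i * Real.log n)) =O[atTop] G := by
    have h3 := IsBigO.sum hκ
    refine h3.congr_left fun n => ?_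
    rw [Finset.sum_apply]
  refine (h1.add h2).congr_left fun n => ?_
  rw [Finset.sum_sub_distrib, Finset.sum_mul]
  ring

/-- the special values -/
lemma special_iff {a b : ℤ} (hab : IsCoprime a b) (h1 : -a < b) (h2 : b < a) {p : ℕ}
    (hD : (a - b).natAbs < p) (hp : p.Prime) :
    (W a b (1 / ((a : ℝ) - b)) p).Prime ↔ Prime ((a ^ p - b ^ p) / (a - b)) := by
  have h3 : ¬ (p : ℤ) ∣ a - b := by
    intro hd
    have h4 := Int.natAbs_dvd_natAbs.2 hd
    rw [Int.natAbs_natCast] at h4
    have h5 := Nat.le_of_dvd (Int.natAbs_pos.2 (by omega)) h4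
    omega
  have h4 : (W a b (1 / ((a : ℝ) - b)) p : ℤ) * (a - b) = a ^ p - b ^ p :=
    SetsOfExponents.special hab h1 h2 hp h3
  rw [← h4, Int.mul_ediv_cancel _ (by omega)]
  exact Nat.prime_iff_prime_int

theorem result :
    -- at the amplitudes `1 / (a - b)`, `1 / (a' - b')` the common exponents are those of the question
    (∀ a b a' b' : ℤ, IsCoprime a b → IsCoprime a' b' → -a < b → b < a → -a' < b' → b' < a' →
      ({p : ℕ | p.Prime ∧ Prime ((a ^ p - b ^ p) / (a - b)) ∧
          Prime ((a' ^ p - b' ^ p) / (a' - b'))}.Finite ↔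
        (Common a b a' b' (1 / ((a : ℝ) - b)) (1 / ((a' : ℝ) - b'))).Finite)) ∧
    -- for almost every amplitude there are only finitely many common exponents
    (∀ᵐ β : ℝ, 0 < β → ∀ (a b a' b' : ℤ) (ρ : ℚ), 1 < a → 1 < a' → |b| < a → |b'| < a' → 0 < ρ →
      ¬ Exceptional a b a' b' ρ → (Common a b a' b' β (ρ * β)).Finite) ∧
    -- the law for the union of the exponents of finitely many pairs
    (∀ᵐ β : ℝ, 0 < β → ∀ S : Finset (ℤ × ℤ × ℚ),
      (∀ s ∈ S, 1 < s.1 ∧ |s.2.1| < s.1 ∧ 0 < s.2.2) →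
      (∀ s ∈ S, ∀ t ∈ S, s ≠ t → ¬ Exceptional s.1 s.2.1 t.1 t.2.1 (t.2.2 / s.2.2)) →
      (fun n : ℕ => (union S β n : ℝ) -
        (∑ s ∈ S, Real.exp Real.eulerMascheroniConstant / Real.log s.1) * Real.log n) =O[atTop]
      (fun n : ℕ => Real.sqrt (Real.log n) * (Real.log (Real.log n)) ^ ((5 : ℝ) / 2))) := by
  classical
  have hfin : ∀ᵐ β : ℝ, 0 < β → ∀ (a b a' b' : ℤ) (ρ : ℚ), 1 < a → 1 < a' → |b| < a → |b'| < a' →
      0 < ρ → ¬ Exceptional a b a' b' ρ → (Common a b a' b' β (ρ * β)).Finite := by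
    have h : ∀ (a b a' b' : ℤ) (ρ : ℚ), ∀ᵐ β : ℝ, 1 < a → 1 < a' → |b| < a → |b'| < a' → 0 < ρ →
        ¬ Exceptional a b a' b' ρ → 0 < β → (Common a b a' b' β (ρ * β)).Finite := by
      intro a b a' b' ρ
      by_cases hc : (1 < a ∧ 1 < a' ∧ |b| < a ∧ |b'| < a' ∧ 0 < ρ) ∧ ¬ Exceptional a b a' b' ρ
      · obtain ⟨⟨h1, h2, h3, h4, h5⟩, h6⟩ := hc
        filter_upwards [finite_all h1 h2 h3 h4 ρ h5 h6] with β hβ _ _ _ _ _ _ h0
        exact hβ h0
      · exact Eventually.of_forall fun β h1 h2 h3 h4 h5 h6 =>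
          absurd ⟨⟨h1, h2, h3, h4, h5⟩, h6⟩ hc
    filter_upwards [ae_all_iff.2 fun a => ae_all_iff.2 fun b => ae_all_iff.2 fun a' =>
      ae_all_iff.2 fun b' => ae_all_iff.2 (h a b a' b')] with β hβ h0 a b a' b' ρ h1 h2 h3 h4 h5 h6
    exact hβ a b a' b' ρ h1 h2 h3 h4 h5 h6 h0
  refine ⟨?_, hfin, ?_⟩
  · intro a b a' b' hab hab' h1 h2 h1' h2'
    set D := max (a - b).natAbs (a' - b').natAbs with hD
    have hagree : ∀ p : ℕ, D < p → (p ∈ {p : ℕ | p.Prime ∧ Prime ((a ^ p - b ^ p) / (a - b)) ∧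
          Prime ((a' ^ p - b' ^ p) / (a' - b'))} ↔
        p ∈ Common a b a' b' (1 / ((a : ℝ) - b)) (1 / ((a' : ℝ) - b'))) := by
      intro p hp
      have hp1 : (a - b).natAbs < p := lt_of_le_of_lt (le_max_left _ _) hp
      have hp2 : (a' - b').natAbs < p := lt_of_le_of_lt (le_max_right _ _) hp
      constructor
      · rintro ⟨k1, k2, k3⟩
        exact ⟨k1, (special_iff hab h1 h2 hp1 k1).2 k2, (special_iff hab' h1' h2' hp2 k1).2 k3⟩
      · rintro ⟨k1, k2, k3⟩
        exact ⟨k1, (special_iff hab h1 h2 hp1 k1).1 k2, (special_iff hab' h1' h2' hp2 k1).1 k3⟩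
    constructor
    · intro h
      refine ((Set.finite_Iic D).union h).subset fun p hp => ?_
      rcases le_or_gt p D with hc | hc
      · exact Or.inl hc
      · exact Or.inr ((hagree p hc).2 hp)
    · intro h
      refine ((Set.finite_Iic D).union h).subset fun p hp => ?_
      rcases le_or_gt p D with hc | hc
      · exact Or.inl hc
      · exact Or.inr ((hagree p hc).1 hp)
  · -- all ratios of the second amplitude to the first one
    have hfin2 : ∀ᵐ β : ℝ, ∀ r : ℚ, 0 < r → 0 < β → ∀ (a b a' b' : ℤ) (ρ : ℚ), 1 < a → 1 < a' →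
        |b| < a → |b'| < a' → 0 < ρ → ¬ Exceptional a b a' b' ρ →
        (Common a b a' b' (r * β) (ρ * (r * β))).Finite := by
      rw [ae_all_iff]
      intro r
      by_cases hr : 0 < r
      · have hr' : (0 : ℝ) < r := by exact_mod_cast hr
        filter_upwards [ae_scale hfin hr'] with β hβ _
        exact hβ
      · exact Eventually.of_forall fun β h1 => absurd h1 hr
    filter_upwards [law, hfin2] with β hβ hβ2 h0 S hS hinj
    have hcommon : ∀ s ∈ S, ∀ t ∈ S, s ≠ t →
        {p : ℕ | (p.Prime ∧ (W s.1 s.2.1 (s.2.2 * β) p).Prime) ∧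
          (p.Prime ∧ (W t.1 t.2.1 (t.2.2 * β) p).Prime)}.Finite := by
      intro s hs t ht hst
      obtain ⟨s1, s2, s3⟩ := hS s hs
      obtain ⟨t1, t2, t3⟩ := hS t ht
      refine (hβ2 s.2.2 s3 h0 s.1 s.2.1 t.1 t.2.1 (t.2.2 / s.2.2) s1 t1 s2 t2 (div_pos t3 s3)
        (hinj s hs t ht hst)).subset ?_
      rintro p ⟨⟨k1, k2⟩, _, k3⟩
      refine ⟨k1, k2, ?_⟩
      have hs0 : ((s.2.2 : ℚ) : ℝ) ≠ 0 := by exact_mod_cast s3.ne'
      have e : ((t.2.2 / s.2.2 : ℚ) : ℝ) * ((s.2.2 : ℝ) * β) = (t.2.2 : ℝ) * β := by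
        push_cast
        field_simp
      rw [e]
      exact k3
    refine union_law S (fun s p => p.Prime ∧ (W s.1 s.2.1 (s.2.2 * β) p).Prime)
      (κ := fun s => Real.exp Real.eulerMascheroniConstant / Real.log s.1)
      hcommon one_isBigO
      (fun s hs => by
        obtain ⟨s1, s2, s3⟩ := hS s hs
        have h1 := hβ s.2.2 s3 h0 s.1 s.2.1 s1 (abs_lt.1 s2).1 (abs_lt.1 s2).2
        refine h1.congr_left fun n => ?_
        have h2 : SetsOfExponents.M Set.univ s.1 s.2.1 (s.2.2 * β) n =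
            ((Finset.range (n + 1)).filter
              (fun p => p.Prime ∧ (W s.1 s.2.1 (s.2.2 * β) p).Prime)).card := by
          unfold SetsOfExponents.M
          congr 1
          ext p
          simp only [Finset.mem_filter, Set.mem_univ, true_and]
          rfl
        rw [h2])
      (fun p => p.Prime ∧ ∃ s ∈ S, (W s.1 s.2.1 (s.2.2 * β) p).Prime)
      (fun p => by
        constructor
        · rintro ⟨k1, s, hs, k2⟩
          exact ⟨s, hs, k1, k2⟩
        · rintro ⟨s, hs, k1, k2⟩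
          exact ⟨k1, s, hs, k2⟩)

end Pool.Agent.Results.MP_de9007_nt.CommonExponents
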