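import Mathlib
import Pool.Agent.Zk73.LW.K

set_option autoImplicit false

/-!
# The numbers `(a ^ p - b ^ p) / (a - b)`: clusters of exponents and gaps between exponents

For integers `a`, `b` with `1 ≤ |b| < a`, a real `β > 0` and a prime `p` let `W a b β p` be the
`p`-rough part (the product, with multiplicity, of the prime factors larger than `p`) of
`⌈β a ^ p⌉ - ⌈b ^ p / (a - b)⌉`.  For coprime `a`, `b` and `β = 1 / (a - b)` this is the number
`(a ^ p - b ^ p) / (a - b)` of the question, for every prime `p` that does not divide `a - b`.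
An exponent is a prime `p` with `W a b β p` prime.

In the Poisson model behind the conjecture the exponents form a Poisson process of intensity `κ a` on the
scale `log p`, so there are clusters of `k` exponents in windows of relative length
`(log x) ^ (-1 / (k - 1))`, but, up to a factor `(log x) ^ ε`, no narrower clusters.  For almost every `β`
we prove this upper bound for all pairs with `|b| ≥ 2` and all `k` at once.  For `|b| = 1` (Mersenne
numbers, Wagstaff numbers, repunits) the model has to be corrected: the number for `q` is `a ^ (q - p)`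
times the number for `p` if the digits between are `0` (for `b = 1`) or `a - 1` (for `b = -1`), and this
happens with probability `a ^ (p - q)`.  So there are exponents `p < q` with `q - p` as large as
`log log p / log a`; we prove that for almost every `β` two exponents `p < q` satisfy either
`q - p ≤ (1 + ε) log log p / log a` or `q - p > p / (log p) ^ (1 + ε)`, except for finitely many.

Idea of the proof.  Sieve bounds of the starting library for several exponents in `(x, 2 x]`, for `k`
exponents of the order `(log x / x) ^ k` (`|b| ≥ 2`), and for two exponents the bound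
`(log q / q) (log p / p + a ^ (p - q))`; the theorem of Brun and Titchmarsh for the number of sets of
primes; the lemma of Borel and Cantelli.
-/

namespace Pool.Agent.Results.MP_de9007_nt.ExponentClusters

open Filter Topology MeasureTheory

/-- The product, with multiplicity, of the prime factors of `m` that are larger than `p`. -/
def roughPart (p m : ℕ) : ℕ := (m.primeFactorsList.filter (fun r => p < r)).prod

/-- The `p`-rough part of `⌈β a ^ p⌉ - ⌈b ^ p / (a - b)⌉`. -/
noncomputable def W (a : ℕ) (b : ℤ) (β : ℝ) (p : ℕ) : ℕ :=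
  roughPart p (⌈β * (a : ℝ) ^ p⌉ - ⌈(b : ℝ) ^ p / ((a : ℝ) - b)⌉).toNat

/-- The exponents of the pair `(a, b)` and the amplitude `β`. -/
def IsExponent (a : ℕ) (b : ℤ) (β : ℝ) (p : ℕ) : Prop := p.Prime ∧ (W a b β p).Prime

/-- Clusters of `k` exponents for `|b| ≥ 2`; gaps between two exponents for all pairs. -/
theorem result :
    (∀ᵐ β : ℝ, 0 < β → ∀ (a : ℕ) (b : ℤ), 2 ≤ |b| → |b| < a → ∀ k : ℕ, 2 ≤ k →
      ∀ ε : ℝ, 0 < ε → ∀ᶠ x : ℝ in atTop, ∀ S : Finset ℕ,
        (∀ p ∈ S, IsExponent a b β p ∧ x < p ∧
          (p : ℝ) ≤ x + x / Real.log x ^ (1 / ((k : ℝ) - 1) + ε)) → S.card < k) ∧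
    (∀ᵐ β : ℝ, 0 < β → ∀ (a : ℕ) (b : ℤ), 1 ≤ |b| → |b| < a → ∀ ε : ℝ, 0 < ε →
      ∀ᶠ p : ℕ in atTop, ∀ q > p, IsExponent a b β p → IsExponent a b β q →
        ((q : ℝ) - p ≤ (1 + ε) * Real.log (Real.log p) / Real.log a ∨
          p / Real.log p ^ (1 + ε) < (q : ℝ) - p)) := by
  constructor
  · filter_upwards [Pool.Agent.Zk73.LW.clusters] with β hβ hβ0 a b hb hba k hk ε hε
    filter_upwards [hβ hβ0 a b hb hba k hk ε hε] with x hx S hS
    refine hx S fun p hp => ?_
    obtain ⟨⟨s1, s2⟩, s3, s4⟩ := hS p hp
    exact ⟨s1, s2, s3, s4⟩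
  · filter_upwards [Pool.Agent.Zk73.LW.gaps] with β hβ hβ0 a b hb hba ε hε
    filter_upwards [hβ hβ0 a b hb hba ε hε] with p hp q hq h1 h2
    exact hp q hq h1.1 h2.1 h1.2 h2.2

end Pool.Agent.Results.MP_de9007_nt.ExponentClusters
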