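import Mathlib
import Pool.Agent.Zk45.AT.Fin

set_option autoImplicit false

/-!
# The Lenstra-Pomerance-Wagstaff law for all pairs `(a, b)` and almost every `a`-adic unit

Let `a > 1` and `b ≠ 0` be coprime integers, `|b| < a`.  The number `M_p(a, b) = (a ^ p - b ^ p) / (a - b)`
lies in `[0, a ^ p)` and is congruent to `α b ^ p` modulo `a ^ p`, where `α = -1 / (a - b)` is an
`a`-adic unit.  For an arbitrary `a`-adic integer `α = ∑ d i a ^ i` let `T a b d p` in `[0, a ^ p)` be the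
residue of `α b ^ p` modulo `a ^ p`, the integer formed by the last `p` digits of `α b ^ p`, let
`W a b d p` be its `p`-rough part (the product, with multiplicity, of its prime factors larger than
`p`), and let `N a b d n` be the number of primes `p ≤ n` with `W a b d p` prime.

We prove that for every `a ≥ 2` and almost every `a`-adic unit `α` (independent uniform digits, the
last one prime to `a`) the limit of `N a b d n / log n` exists and equals `e ^ γ / log a` for all
integers `b ≠ 0` prime to `a` with `|b| < a`, simultaneously; and that `α = -1 / (a - b)` gives the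
numbers `M_p(a, b)` and, up to a bounded error, the counting function of the conjecture.

For `b = 1`, `a = 2` this is the starting file `MP_9b2bac_nt/TwoAdicLaw`.  For `|b| ≥ 2` the residues for two
exponents `p < q` are no longer nested: they are related by `T q = b ^ (q - p) T p + t a ^ p` with an
integer `t` of either sign, and pairs of close exponents are counted, for given `t`, by a sieve for
the two linear forms `x` and `b ^ (q - p) x + t a ^ p`.  The distant pairs are treated by the theorem on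
primes in progressions to moduli `a ^ k` of the library `W66`, for an arbitrary function of the
residue.
-/

namespace Pool.Agent.Results.MP_de9007_nt.LastDigits

open Filter Topology MeasureTheory

/-- The product, with multiplicity, of the prime factors of `m` that are larger than `p`. -/
def roughPart (p m : ℕ) : ℕ := (m.primeFactorsList.filter (fun r => p < r)).prod

/-- The residue modulo `a ^ n` of the `a`-adic integer with the digits `d 0, d 1, …`. -/
def residue (a : ℕ) (d : ℕ → Fin a) (n : ℕ) : ℕ := ∑ i ∈ Finset.range n, (d i : ℕ) * a ^ i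

/-- The residue in `[0, a ^ p)` of `α b ^ p` modulo `a ^ p`, `α` the `a`-adic integer with the digits
`d 0, d 1, …`. -/
def T (a : ℕ) (b : ℤ) (d : ℕ → Fin a) (p : ℕ) : ℕ :=
  (((residue a d p : ℤ) * b ^ p) % (a : ℤ) ^ p).toNat

/-- Its `p`-rough part. -/
def W (a : ℕ) (b : ℤ) (d : ℕ → Fin a) (p : ℕ) : ℕ := roughPart p (T a b d p)

/-- The number of primes `p ≤ n` for which `W a b d p` is prime. -/
def N (a : ℕ) (b : ℤ) (d : ℕ → Fin a) (n : ℕ) : ℕ :=
  ((Finset.range (n + 1)).filter (fun p => p.Prime ∧ (W a b d p).Prime)).card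

open Classical in
/-- The number of primes `p ≤ n` for which `M_p(a, b) = (a ^ p - b ^ p) / (a - b)` is prime. -/
noncomputable def count (a : ℕ) (b : ℤ) (n : ℕ) : ℕ :=
  ((Finset.range (n + 1)).filter
    (fun p => p.Prime ∧ Prime (((a : ℤ) ^ p - b ^ p) / ((a : ℤ) - b)))).card

/-- Independent digits, uniformly distributed on `0, …, a - 1`: Haar measure on the `a`-adic
integers. -/
noncomputable def haar (a : ℕ) [NeZero a] : Measure (ℕ → Fin a) :=
  Measure.infinitePi (fun _ : ℕ => ProbabilityTheory.uniformOn (Set.univ : Set (Fin a)))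

lemma card_le_of_eventually {s t : ℕ → Prop} [DecidablePred s] [DecidablePred t] (D : ℕ)
    (h : ∀ p, D < p → s p → t p) (n : ℕ) :
    (((Finset.range (n + 1)).filter s).card : ℝ) ≤ (((Finset.range (n + 1)).filter t).card : ℝ) +
      (D + 1 : ℕ) := by
  have h1 : (Finset.range (n + 1)).filter s ⊆
      (Finset.range (n + 1)).filter t ∪ Finset.range (D + 1) := by
    intro p hp
    rw [Finset.mem_filter] at hp
    rw [Finset.mem_union, Finset.mem_filter]
    by_cases hD : D < p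
    · exact Or.inl ⟨hp.1, h p hD hp.2⟩
    · exact Or.inr (Finset.mem_range.2 (by omega))
  have h2 := (Finset.card_le_card h1).trans (Finset.card_union_le _ _)
  rw [Finset.card_range] at h2
  exact_mod_cast h2

/-- the geometric sum -/
lemma exists_M {a : ℕ} {b : ℤ} (h1 : -(a : ℤ) < b) (h2 : b < a) {p : ℕ} (hp : p.Prime) :
    ∃ m : ℕ, (m : ℤ) * ((a : ℤ) - b) = (a : ℤ) ^ p - b ^ p ∧ m ≠ 0 ∧
      (m : ℤ) = ∑ i ∈ Finset.range p, (a : ℤ) ^ i * b ^ (p - 1 - i) := by
  have hgeom : (∑ i ∈ Finset.range p, (a : ℤ) ^ i * b ^ (p - 1 - i)) * ((a : ℤ) - b) =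
      (a : ℤ) ^ p - b ^ p := (Commute.all (a : ℤ) b).geom_sum₂_mul p
  have hb : |b| < (a : ℤ) := abs_lt.2 ⟨h1, h2⟩
  have hbp : |b ^ p| < (a : ℤ) ^ p := by
    rw [abs_pow]
    exact pow_lt_pow_left₀ hb (abs_nonneg _) hp.ne_zero
  have hpos : 0 < (a : ℤ) ^ p - b ^ p := by
    have := (abs_lt.1 hbp).2
    linarith
  have hsum : 0 < ∑ i ∈ Finset.range p, (a : ℤ) ^ i * b ^ (p - 1 - i) := by
    rw [← hgeom] at hpos
    exact pos_of_mul_pos_left hpos (by omega)
  obtain ⟨m, hm⟩ := Int.eq_ofNat_of_zero_le hsum.le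
  have hm' : (∑ i ∈ Finset.range p, (a : ℤ) ^ i * b ^ (p - 1 - i)) = (m : ℤ) := hm
  refine ⟨m, by rw [← hm', hgeom], ?_, hm'.symm⟩
  rintro rfl
  rw [hm'] at hsum
  simp at hsum

/-- the special point -/
lemma special {a : ℕ} [NeZero a] (ha : 2 ≤ a) {b : ℤ} (hab : IsCoprime (a : ℤ) b)
    (h1 : -(a : ℤ) < b) (h2 : b < a) : ∃ δ : ℕ → Fin a, (δ 0 : ℕ).Coprime a ∧
    (∀ n, ((a : ℤ) ^ n) ∣ ((a : ℤ) - b) * residue a δ n + 1) ∧
    (∀ p : ℕ, p.Prime → (T a b δ p : ℤ) * ((a : ℤ) - b) = (a : ℤ) ^ p - b ^ p) ∧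
    (∀ p : ℕ, p.Prime → ¬ (p : ℤ) ∣ (a : ℤ) - b → W a b δ p = T a b δ p) := by
  have hce : IsCoprime (a : ℤ) ((a : ℤ) - b) := by
    obtain ⟨u, v, huv⟩ := hab
    exact ⟨u + v, -v, by linear_combination huv⟩
  obtain ⟨x, hx1, hx2, hx3⟩ := Pool.Agent.Zk45.AT.exists_res ha hce
  obtain ⟨δ, hδ⟩ := Pool.Agent.Zk45.AT.exists_digits hx1 hx2
  have hres : ∀ n, residue a δ n = x n := hδ
  have hval : ∀ p : ℕ, p.Prime → ∀ m : ℕ, (m : ℤ) * ((a : ℤ) - b) = (a : ℤ) ^ p - b ^ p →
      T a b δ p = m := by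
    intro p hp m hm
    unfold T
    rw [hres]
    exact Pool.Agent.Zk45.AT.special_val ha h1 h2 hab hp.ne_zero (hx3 p) hm
  refine ⟨δ, ?_, fun n => by rw [hres]; exact hx3 n, fun p hp => ?_, fun p hp hpd => ?_⟩
  · have h3 := hx3 1
    rw [← hres] at h3
    have h4 : residue a δ 1 = δ 0 := by
      unfold residue
      simp
    rw [h4, pow_one] at h3
    rw [← Nat.isCoprime_iff_coprime]
    obtain ⟨k, hk⟩ := h3
    exact ⟨-((a : ℤ) - b), k, by linear_combination -hk⟩
  · obtain ⟨m, hm, -, -⟩ := exists_M h1 h2 hp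
    rw [hval p hp m hm, hm]
  · obtain ⟨m, hm, hm0, hms⟩ := exists_M h1 h2 hp
    have h3 : T a b δ p = m := hval p hp m hm
    unfold W
    rw [h3]
    exact Pool.Agent.W66L.rough_quot hab hp hpd hm0 hms

/-- the counting function at the special point -/
lemma count_close {a : ℕ} {b : ℤ} (h2 : b < a) {δ : ℕ → Fin a}
    (hδ1 : ∀ p : ℕ, p.Prime → (T a b δ p : ℤ) * ((a : ℤ) - b) = (a : ℤ) ^ p - b ^ p)
    (hδ2 : ∀ p : ℕ, p.Prime → ¬ (p : ℤ) ∣ (a : ℤ) - b → W a b δ p = T a b δ p) :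
    ∃ D : ℝ, ∀ n : ℕ, |(N a b δ n : ℝ) - count a b n| ≤ D := by
  classical
  have key : ∀ p : ℕ, ((a : ℤ) - b).natAbs < p → p.Prime →
      ((W a b δ p).Prime ↔ Prime (((a : ℤ) ^ p - b ^ p) / ((a : ℤ) - b))) := by
    intro p hD hp
    have h3 : ¬ (p : ℤ) ∣ (a : ℤ) - b := by
      intro hd
      have h4 := Int.natAbs_dvd_natAbs.2 hd
      rw [Int.natAbs_natCast] at h4
      have h5 := Nat.le_of_dvd (Int.natAbs_pos.2 (by omega)) h4
      omega
    rw [hδ2 p hp h3, ← hδ1 p hp, Int.mul_ediv_cancel _ (by omega)]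
    exact Nat.prime_iff_prime_int
  refine ⟨((((a : ℤ) - b).natAbs + 1 : ℕ) : ℝ), fun n => ?_⟩
  rw [abs_le]
  have g1 := card_le_of_eventually (s := fun p => p.Prime ∧ (W a b δ p).Prime)
    (t := fun p => p.Prime ∧ Prime (((a : ℤ) ^ p - b ^ p) / ((a : ℤ) - b))) ((a : ℤ) - b).natAbs
    (fun p hD hp => ⟨hp.1, (key p hD hp.1).1 hp.2⟩) n
  have g2 := card_le_of_eventually (t := fun p => p.Prime ∧ (W a b δ p).Prime)
    (s := fun p => p.Prime ∧ Prime (((a : ℤ) ^ p - b ^ p) / ((a : ℤ) - b))) ((a : ℤ) - b).natAbs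
    (fun p hD hp => ⟨hp.1, (key p hD hp.1).2 hp.2⟩) n
  unfold N count
  constructor <;> linarith

/-- from the library's counting function -/
lemma transfer {F H : ℕ → ℝ} {L D : ℝ} (h1 : ∀ n, |H n - F n| ≤ D)
    (h : Tendsto (fun n : ℕ => F n / Real.log n) atTop (𝓝 L)) :
    Tendsto (fun n : ℕ => H n / Real.log n) atTop (𝓝 L) := by
  have hlog : Tendsto (fun n : ℕ => Real.log n) atTop atTop :=
    Real.tendsto_log_atTop.comp tendsto_natCast_atTop_atTop
  have h3 : Tendsto (fun n : ℕ => D / Real.log n) atTop (𝓝 0) := hlog.const_div_atTop _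
  have h4 : Tendsto (fun n : ℕ => H n / Real.log n - F n / Real.log n) atTop (𝓝 0) := by
    refine squeeze_zero_norm' ?_ h3
    filter_upwards [hlog.eventually_gt_atTop 0] with n hn
    rw [← sub_div, Real.norm_eq_abs, abs_div, abs_of_pos hn]
    exact div_le_div_of_nonneg_right (h1 n) hn.le
  have h5 := h4.add h
  rw [zero_add] at h5
  refine h5.congr fun n => ?_
  ring

lemma N_close {a : ℕ} {b : ℤ} {d : ℕ → Fin a} {s : ℕ → ℕ}
    (hs : ∀ p : ℕ, p.Prime → p ≠ 2 → T a b d p = s p) (n : ℕ) :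
    |(N a b d n : ℝ) - Pool.Agent.W66L.cntR s n| ≤ 3 := by
  classical
  have hc : Pool.Agent.W66L.cntR s n =
      ((Finset.range (n + 1)).filter (fun p => p.Prime ∧ (roughPart p (s p)).Prime)).card := by
    unfold Pool.Agent.W66L.cntR
    congr 1
    ext p
    simp only [Finset.mem_filter, Finset.mem_Icc, Finset.mem_range]
    constructor
    · rintro ⟨⟨h5, h6⟩, h7, h8⟩
      exact ⟨by omega, h7, h8⟩
    · rintro ⟨h6, h7, h8⟩
      exact ⟨⟨h7.pos, by omega⟩, h7, h8⟩
  rw [hc, abs_le]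
  have g1 := card_le_of_eventually (s := fun p => p.Prime ∧ (W a b d p).Prime)
    (t := fun p => p.Prime ∧ (roughPart p (s p)).Prime) 2
    (fun p hD hp => ⟨hp.1, by rw [← hs p hp.1 (by omega)]; exact hp.2⟩) n
  have g2 := card_le_of_eventually (t := fun p => p.Prime ∧ (W a b d p).Prime)
    (s := fun p => p.Prime ∧ (roughPart p (s p)).Prime) 2
    (fun p hD hp => ⟨hp.1, by unfold W; rw [hs p hp.1 (by omega)]; exact hp.2⟩) n
  unfold N
  push_cast at g1 g2
  constructor <;> linarith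

/-- positive `b` -/
lemma T_pos {a c : ℕ} (d : ℕ → Fin a) (p : ℕ) :
    T a (c : ℤ) d p = (residue a d p * c ^ p) % a ^ p := by
  unfold T
  have e : ((residue a d p : ℤ) * (c : ℤ) ^ p) % (a : ℤ) ^ p =
      (((residue a d p * c ^ p) % a ^ p : ℕ) : ℤ) := by push_cast; rfl
  rw [e, Int.toNat_natCast]

/-- negative `b` -/
lemma T_neg {a c : ℕ} (d : ℕ → Fin a) {p : ℕ} (hp : Odd p) :
    T a (-(c : ℤ)) d p = (((a ^ p - residue a d p) % a ^ p) * c ^ p) % a ^ p := by
  have hle : residue a d p ≤ a ^ p := (Pool.Agent.W66L.dsum_lt a p d).le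
  unfold T
  have h1 : (residue a d p : ℤ) * (-(c : ℤ)) ^ p ≡
      ((((a ^ p - residue a d p) % a ^ p) * c ^ p : ℕ) : ℤ) [ZMOD (a : ℤ) ^ p] := by
    rw [hp.neg_pow]
    push_cast [Nat.cast_sub hle]
    have h2 : ((a : ℤ) ^ p - residue a d p) % (a : ℤ) ^ p ≡ -(residue a d p : ℤ) [ZMOD (a : ℤ) ^ p] := by
      refine (Int.mod_modEq _ _).trans ?_
      rw [Int.modEq_iff_dvd]
      exact ⟨-1, by ring⟩
    have h3 := h2.mul_right ((c : ℤ) ^ p)
    have h5 : (residue a d p : ℤ) * -(c : ℤ) ^ p = -(residue a d p : ℤ) * (c : ℤ) ^ p := by ring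
    rw [h5]
    exact h3.symm
  have h4 : ((residue a d p : ℤ) * (-(c : ℤ)) ^ p) % (a : ℤ) ^ p =
      (((((a ^ p - residue a d p) % a ^ p) * c ^ p) % a ^ p : ℕ) : ℤ) := by
    rw [h1.eq]
    push_cast
    rfl
  rw [h4, Int.toNat_natCast]

/-- **Theorem.** -/
theorem result (a : ℕ) [NeZero a] (ha : 2 ≤ a) :
    -- the point `-1 / (a - b)` gives the numbers of the problem
    (∀ b : ℤ, IsCoprime (a : ℤ) b → -(a : ℤ) < b → b < a → ∃ δ : ℕ → Fin a,
      (δ 0 : ℕ).Coprime a ∧ (∀ n, ((a : ℤ) ^ n) ∣ ((a : ℤ) - b) * residue a δ n + 1) ∧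
      (∀ p : ℕ, p.Prime → (T a b δ p : ℤ) * ((a : ℤ) - b) = (a : ℤ) ^ p - b ^ p) ∧
      (∀ p : ℕ, p.Prime → ¬ (p : ℤ) ∣ (a : ℤ) - b → W a b δ p = T a b δ p) ∧
      ∃ D : ℝ, ∀ n : ℕ, |(N a b δ n : ℝ) - count a b n| ≤ D) ∧
    -- the law for almost every unit
    ∀ᵐ d : ℕ → Fin a ∂(haar a), (d 0 : ℕ).Coprime a →
      ∀ b : ℤ, IsCoprime (a : ℤ) b → -(a : ℤ) < b → b < a →
        Tendsto (fun n : ℕ => (N a b d n : ℝ) / Real.log n) atTop
          (𝓝 (Real.exp Real.eulerMascheroniConstant / Real.log a)) := by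
  refine ⟨fun b hab h1 h2 => ?_, ?_⟩
  · obtain ⟨δ, g1, g2, g3, g4⟩ := special ha hab h1 h2
    exact ⟨δ, g1, g2, g3, g4, count_close h2 g3 g4⟩
  · have hfull := Pool.Agent.W66L.full_digits a
    have hneg := Pool.Agent.Zk45.AT.Full.neg ha hfull
    have k1 := Pool.Agent.Zk45.AT.law_all ha hfull
    have k2 := Pool.Agent.Zk45.AT.law_all ha hneg
    show ∀ᵐ d : ℕ → Fin a ∂(Pool.Agent.W66L.digitMeasure a), _
    filter_upwards [k1, k2] with d hd1 hd2 hd0 b hab h1 h2
    have e0 : Pool.Agent.W66L.dsum a 1 d = d 0 := by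
      unfold Pool.Agent.W66L.dsum
      simp
    rcases lt_trichotomy b 0 with hb | hb | hb
    · obtain ⟨c, hc⟩ := Int.eq_ofNat_of_zero_le (show 0 ≤ -b by omega)
      have hb' : b = -(c : ℤ) := by
        have : -b = (c : ℤ) := hc
        linarith
      have hcop : c.Coprime a := by
        rw [hb'] at hab
        exact (Nat.isCoprime_iff_coprime.1 (IsCoprime.neg_right_iff _ _ |>.1 hab)).symm
      have h3 : ((a ^ 1 - Pool.Agent.W66L.dsum a 1 d) % a ^ 1).Coprime a := by
        rw [e0, pow_one]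
        have h4 : ((a - (d 0 : ℕ)) % a).Coprime a ↔ (a - (d 0 : ℕ)).Coprime a := by
          rw [Nat.Coprime, Nat.Coprime, (Nat.mod_modEq (a - (d 0 : ℕ)) a).gcd_eq]
        rw [h4, Nat.coprime_self_sub_left (d 0).isLt.le]
        exact hd0
      have h5 := hd2 h3 c (by omega) (by omega) hcop
      refine transfer (D := 3) (fun n => N_close (fun p hp hp2 => ?_) n) h5
      rw [hb']
      exact T_neg d (hp.odd_of_ne_two hp2)
    · exfalso
      rw [hb] at hab
      have h8 := Int.isUnit_iff.1 (isCoprime_zero_right.1 hab)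
      omega
    · obtain ⟨c, hc⟩ := Int.eq_ofNat_of_zero_le hb.le
      have hb' : b = (c : ℤ) := hc
      have hcop : c.Coprime a := by
        rw [hb'] at hab
        exact (Nat.isCoprime_iff_coprime.1 hab).symm
      have h3 : (Pool.Agent.W66L.dsum a 1 d).Coprime a := by
        rw [e0]
        exact hd0
      have h5 := hd1 h3 c (by omega) (by omega) hcop
      refine transfer (D := 3) (fun n => N_close (fun p hp hp2 => ?_) n) h5
      rw [hb']
      exact T_pos d p

end Pool.Agent.Results.MP_de9007_nt.LastDigits
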