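import Mathlib
import Pool.Agent.Zk73.LW.F

set_option autoImplicit false

/-!
# The numbers `(a ^ p - b ^ p) / (a - b)`: joint Poisson laws for sparse sets of exponents

For integers `a`, `b` with `1 ≤ |b| < a`, a real `β > 0` and a prime `p` let `W a b β p` be the
`p`-rough part (the product, with multiplicity, of the prime factors larger than `p`) of
`⌈β a ^ p⌉ - ⌈b ^ p / (a - b)⌉`.  For coprime `a`, `b` and `β = 1 / (a - b)` this is the number
`(a ^ p - b ^ p) / (a - b)` of the question, for every prime `p` that does not divide `a - b`.

The heuristic behind the conjecture is that the exponents `p` with `W a b β p` prime form, on the scale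
`log p`, a Poisson process of intensity `κ a = e ^ γ / log a`.  The starting files prove the law of large
numbers and bounds of the order of the fluctuations for almost every `β`.  Here the Poisson law
itself is proved for sparse sets of exponents: let `T i n` (`i < r`, `n → ∞`) be finite sets of primes,
disjoint for different `i`, whose least elements tend to infinity, such that `∑ log p / p` over the
`p` in `T i n ∩ (x, 2 x]` tends to zero uniformly in `x`, and `κ a ∑ log p / p` over `T i n` tends to
`λ i`.  Then for a random `β` (uniform on any set of finite measure, so for any absolutely continuous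
law) the numbers of exponents in `T 0 n, …, T (r - 1) n` are, in the limit, independent Poisson variables
with the means `λ i`.  For `b = 1` and `b = -1` (Mersenne numbers, Wagstaff numbers, repunits) the
exponents have a tendency to come in close clusters (if the digits between `p` and `q` are all `0` or all
`a - 1`), and then we suppose that the distances of the elements of the union of the `T i n` tend to
infinity; this is not needed for `|b| ≥ 2`.

Idea of the proof.  The starting library has, for cells (given first digits), an upper bound sieve for
several exponents, the smallness of the set of `β` with a large smooth part, the second moment, and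
the fact that in most cells of level `2 ^ (i + 1 - k)` the mean number of exponents in a subset of
`(2 ^ i, 2 ^ (i + 1)]` is the expected one.  We add an upper bound for the probability of two exponents
`p < q` of the right order `(log p / p) (log q / q)` (near exponents: two-dimensional sieve; far
exponents: sieve in the very short interval of the numbers with given first `p` digits), and deduce a
recursion for the generating functions of the numbers of exponents up to `2 ^ i`, in which the history
enters only through the digits before the level `2 ^ (i + 1 - k)`; the sparsity makes the error, the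
pairs of exponents in neighbouring blocks, summable.
-/

namespace Pool.Agent.Results.MP_de9007_nt.PoissonLaw

open Filter Topology MeasureTheory

/-- The product, with multiplicity, of the prime factors of `m` that are larger than `p`. -/
def roughPart (p m : ℕ) : ℕ := (m.primeFactorsList.filter (fun r => p < r)).prod

/-- The `p`-rough part of `⌈β a ^ p⌉ - ⌈b ^ p / (a - b)⌉`. -/
noncomputable def W (a : ℕ) (b : ℤ) (β : ℝ) (p : ℕ) : ℕ :=
  roughPart p (⌈β * (a : ℝ) ^ p⌉ - ⌈(b : ℝ) ^ p / ((a : ℝ) - b)⌉).toNat

/-- The constant of the law, `e ^ γ / log a`. -/
noncomputable def κ (a : ℕ) : ℝ := Real.exp Real.eulerMascheroniConstant / Real.log a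

open Classical in
/-- The number of `p` in the finite set `S` for which `W a b β p` is prime. -/
noncomputable def count (a : ℕ) (b : ℤ) (S : Finset ℕ) (β : ℝ) : ℕ :=
  (S.filter (fun p => (W a b β p).Prime)).card

/-- The special values; the joint Poisson law for sparse sets of exponents. -/
theorem result :
    (∀ (a : ℕ) (b : ℤ), 1 ≤ |b| → |b| < a → IsCoprime (a : ℤ) b → ∀ p : ℕ, p.Prime →
      ¬ (p : ℤ) ∣ a - b → (W a b (1 / ((a : ℝ) - b)) p : ℤ) * (a - b) = (a : ℤ) ^ p - b ^ p) ∧
    ∀ (a : ℕ) (b : ℤ), 1 ≤ |b| → |b| < a →
      ∀ (r : ℕ) (T : Fin r → ℕ → Finset ℕ) (lam : Fin r → ℝ),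
      -- finite sets of primes, disjoint for different `i`
      (∀ i n, ∀ p ∈ T i n, p.Prime) →
      (∀ n i j, i ≠ j → Disjoint (T i n) (T j n)) →
      -- tending to infinity
      (∀ P : ℕ, ∀ᶠ n in atTop, ∀ i, ∀ p ∈ T i n, P ≤ p) →
      -- sparse
      (∀ ε : ℝ, 0 < ε → ∀ᶠ n in atTop, ∀ i, ∀ x : ℕ,
        ∑ p ∈ (T i n).filter (fun p => x < p ∧ p ≤ 2 * x), Real.log p / p ≤ ε) →
      -- only for `b = 1` and `b = -1`: with distances tending to infinity
      (|b| = 1 → ∀ g : ℕ, ∀ᶠ n in atTop, ∀ i j, ∀ p ∈ T i n, ∀ q ∈ T j n, p < q → g ≤ q - p) →
      -- the expected numbers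
      (∀ i, Tendsto (fun n => κ a * ∑ p ∈ T i n, Real.log p / p) atTop (𝓝 (lam i))) →
      ∀ (k : Fin r → ℕ) (E : Set ℝ), MeasurableSet E → E ⊆ Set.Ioi 0 → volume E ≠ ⊤ →
      Tendsto (fun n => (volume (E ∩ {β : ℝ | ∀ i, count a b (T i n) β = k i})).toReal) atTop
        (𝓝 ((volume E).toReal *
          ∏ i, Real.exp (-lam i) * lam i ^ k i / ((k i).factorial : ℝ))) := by
  classical
  refine ⟨fun a b _ h2 h3 p hp hpd => Pool.Agent.N176.SH.spe h2 h3 hp hpd,
    fun a b h1 h2 r T lam hp hd hmin hthin hgap hlam k E hE hE0 hEf => ?_⟩
  have h := Pool.Agent.Zk73.LW.law h1 h2 hp hd hmin hthin hgap hlam k hE hE0 hEf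
  have e : ∀ n, {β : ℝ | ∀ i, ((T i n).filter
      (fun p => (Pool.Agent.N176.SH.WW a b β p).Prime)).card = k i} =
      {β : ℝ | ∀ i, count a b (T i n) β = k i} := by
    intro n
    ext β
    simp only [Set.mem_ofPred_eq]
    refine forall_congr' fun i => ?_
    unfold count W Pool.Agent.N176.SH.WW
    constructor
    · intro h3
      rw [← h3]
      congr!
    · intro h3
      rw [← h3]
      congr!
  simp only [e] at h
  exact h

end Pool.Agent.Results.MP_de9007_nt.PoissonLaw
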